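import Pool.Agent.MWGP.Stmts

/-!
# Row BRG of squad MWGP: the identities of M1 give the hypotheses `M1`
-/

namespace Pool.Agent.MWGP.H33

open Pool.Agent.Helper14_MV Pool.Agent.Helper2_MV Pool.Agent.MVO Pool.Agent.MWL Pool.Agent.MWS
  Pool.Agent.MWA
  Pool.Agent.MWH

private theorem fm_rep2 (g : ℕ → List ℕ) (m : ℕ) (x y : ℕ) (h : g x = [y, y]) :
    (List.replicate m x).flatMap g = List.replicate (2 * m) y := by
  induction m with
  | zero => rfl
  | succ m ih =>
    rw [List.replicate_succ, List.flatMap_cons, ih, h]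
    show [y, y] ++ List.replicate (2 * m) y = List.replicate (2 * m + 2) y
    rfl

private theorem rr_trans {β : FIC} {a b c : List ℕ} (h : RR β a b) (h' : RR β b c) : RR β a c :=
  β.trans h h'

/-- `x² ~ x^(2n+2)` -/
private theorem two_n {n : ℕ} {β : FIC} (hp : MWZ.Per n (RR β)) :
    RR β [0, 0] (List.replicate (2 * (n + 1)) 0) := by
  have h1 : RR β (List.replicate 2 0) (List.replicate (n + 2) 0) := hp
  have h2 := h1.append (RR.refl (List.replicate n 0))
  have e1 : List.replicate 2 0 ++ List.replicate n 0 = List.replicate (n + 2) 0 := by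
    rw [List.replicate_append_replicate, Nat.add_comm]
  have e2 : List.replicate (n + 2) 0 ++ List.replicate n 0 = List.replicate (2 * (n + 1)) 0 := by
    rw [List.replicate_append_replicate]
    congr 1
    omega
  rw [e1, e2] at h2
  exact rr_trans h1 h2

theorem brg (h1 : MWHP.CphStmt) (h2 : GapStmt) (h3 : FcmStmt) : BrgStmt := by
  intro n β hL
  have hcm : Cm2 β := h3 n β hL
  have hcap : CapP β := h1 β hcm
  have hgap := h2 n β hL.ga hL.rn
  have hic : RR β [0, 1, 0, 1] [1, 0, 1, 0] := by
    have a1 : RR β [0, 1, 0, 1] [1, 0, 0, 1] := by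
      have := hL.f [] [] [] [] 0 1 (by intro a ha; cases ha)
      exact this
    have a2 : RR β [1, 0, 0, 1] [1, 0, 1, 0] := (hgap [1, 0] [] 0 1 (by simp)).2 (by simp)
    exact rr_trans a1 a2
  have hrr : RR β [0, 0, 2, 0] ([0, 0, 2] ++ List.replicate (n + 1) 0) := by
    have := (hgap [0, 0, 2] [] 0 0 (by simp)).1
    simpa using this
  have hhh : RR β [0, 0, 1, 1] [1, 1, 0, 0] := by
    have hrn : RR β (List.replicate (n + 1) 0 ++ List.replicate (n + 1) 1)
      (List.replicate (n + 1) 1 ++ List.replicate (n + 1) 0) := hL.rn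
    have a1 := hrn.sub (fun a => [a, a])
    rw [List.flatMap_append, List.flatMap_append, fm_rep2 _ _ 0 0 rfl, fm_rep2 _ _ 1 1 rfl] at a1
    have a2 := two_n hL.per
    have a3 : RR β [1, 1] (List.replicate (2 * (n + 1)) 1) := by
      have := a2.sub (fun _ => [1])
      have e : (List.replicate (2 * (n + 1)) 0).flatMap (fun _ => [1])
          = List.replicate (2 * (n + 1)) 1 := by
        generalize 2 * (n + 1) = m
        induction m with
        | zero => rfl
        | succ m ih => rw [List.replicate_succ, List.flatMap_cons, ih]; rfl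
      rw [e] at this
      exact this
    exact rr_trans (a2.append a3) (rr_trans a1 (a3.append a2).symm)
  have hitn : MWHP.ItN n β :=
    { one := fun p w q x hw => hL.i1 p w q x (fun a ha => hw a ha)
      two := fun p w w' q x hw => hL.i2 p w w' q x (fun a ha => hw a (List.mem_append.1 ha)) }
  exact
    { pos := hL.pos
      ap := hL.per
      rr := hrr
      ic := hic
      itn := hitn
      cap := hcap
      cm2 := hcm
      hh := hhh
      j2 := hL.ga }

end Pool.Agent.MWGP.H33
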